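import Pool.Agent.Y748.SR.Stm

/-!
# Project SR, (COEF): the coefficients of a polynomial of degree at most one in each variable
-/

open Finset Filter Topology

set_option autoImplicit false

namespace Pool.Agent.Y290.SR

open Pool.Agent.Y748.SR

theorem coef_ex (R : Finset ℤ) : ∀ F : Finset ℤ → ℝ, ∃ c : Finset ℤ → ℝ, ∀ y : ℤ → ℝ,
    ∑ S ∈ R.powerset, F S * ((∏ n ∈ S, (1 - y n)) * ∏ n ∈ R \ S, y n) =
      ∑ T ∈ R.powerset, c T * ∏ n ∈ T, y n := by
  classical
  induction R using Finset.induction_on with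
  | empty =>
    intro F
    refine ⟨F, fun y => ?_⟩
    simp
  | insert m R hm ih =>
    intro F
    obtain ⟨c0, h0⟩ := ih F
    obtain ⟨c1, h1⟩ := ih fun S => F (insert m S)
    refine ⟨fun T => if m ∈ T then c0 (T.erase m) - c1 (T.erase m) else c1 T, fun y => ?_⟩
    have hn : ∀ S ∈ R.powerset, m ∉ S := fun S hS h => hm (mem_powerset.1 hS h)
    rw [sum_powerset_insert hm, sum_powerset_insert hm]
    have e1 : ∑ S ∈ R.powerset, F S * ((∏ n ∈ S, (1 - y n)) * ∏ n ∈ insert m R \ S, y n) =
        y m * ∑ S ∈ R.powerset, F S * ((∏ n ∈ S, (1 - y n)) * ∏ n ∈ R \ S, y n) := by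
      rw [mul_sum]
      refine sum_congr rfl fun S hS => ?_
      rw [insert_sdiff_of_notMem _ (hn S hS), prod_insert (by simp [hm])]
      ring
    have e2 : ∑ S ∈ R.powerset, F (insert m S) * ((∏ n ∈ insert m S, (1 - y n)) *
        ∏ n ∈ insert m R \ insert m S, y n) =
        (1 - y m) * ∑ S ∈ R.powerset, F (insert m S) *
          ((∏ n ∈ S, (1 - y n)) * ∏ n ∈ R \ S, y n) := by
      rw [mul_sum]
      refine sum_congr rfl fun S hS => ?_
      have e3 : insert m R \ insert m S = R \ S := by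
        apply Finset.ext
        intro x
        rw [Finset.mem_sdiff, Finset.mem_sdiff, Finset.mem_insert, Finset.mem_insert]
        constructor
        · rintro ⟨h1 | h1, h2⟩
          · exact absurd (Or.inl h1) h2
          · exact ⟨h1, fun h3 => h2 (Or.inr h3)⟩
        · rintro ⟨h1, h2⟩
          refine ⟨Or.inr h1, ?_⟩
          rintro (h3 | h3)
          · exact hm (h3 ▸ h1)
          · exact h2 h3
      rw [e3, prod_insert (hn S hS)]
      ring
    have e4 : ∑ S ∈ R.powerset, (if m ∈ S then c0 (S.erase m) - c1 (S.erase m) else c1 S) *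
        ∏ n ∈ S, y n = ∑ S ∈ R.powerset, c1 S * ∏ n ∈ S, y n := by
      refine sum_congr rfl fun S hS => ?_
      rw [if_neg (hn S hS)]
    have e5 : ∑ S ∈ R.powerset, (if m ∈ insert m S then c0 ((insert m S).erase m) -
        c1 ((insert m S).erase m) else c1 (insert m S)) * ∏ n ∈ insert m S, y n =
        y m * ∑ S ∈ R.powerset, c0 S * ∏ n ∈ S, y n -
          y m * ∑ S ∈ R.powerset, c1 S * ∏ n ∈ S, y n := by
      rw [← mul_sub, ← sum_sub_distrib, mul_sum]
      refine sum_congr rfl fun S hS => ?_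
      rw [if_pos (mem_insert_self _ _), erase_insert (hn S hS), prod_insert (hn S hS)]
      ring
    rw [e1, e2, e4, e5, h0, h1]
    ring

/-- (COEF) -/
theorem t_COEF : S_COEF := by
  classical
  intro F R
  obtain ⟨c, hc⟩ := coef_ex R F
  refine ⟨c, hc, ?_⟩
  intro h T hT
  have hsub : T.powerset ⊆ R.powerset := powerset_mono.2 (mem_powerset.1 hT)
  have hpos : ∀ s : ℝ, 0 < s → 0 ≤ ∑ T1 ∈ T.powerset, c T1 * s ^ (T.card - T1.card) := by
    intro s hs
    have h1 := h (fun n => if n ∈ T then s⁻¹ else 0) (fun n => by split_ifs <;> positivity)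
    rw [← sum_subset hsub] at h1
    · have h2 := mul_nonneg (pow_nonneg hs.le T.card) h1
      refine h2.trans_eq ?_
      rw [mul_sum]
      refine sum_congr rfl fun T1 hT1 => ?_
      have hT1' := mem_powerset.1 hT1
      have h3 : ∏ n ∈ T1, (if n ∈ T then s⁻¹ else 0) = s⁻¹ ^ T1.card := by
        rw [← prod_const]
        exact prod_congr rfl fun n hn => if_pos (hT1' hn)
      rw [h3, pow_sub₀ s hs.ne' (card_le_card hT1'), inv_pow]
      ring
    · intro T1 _ hT1
      rw [mem_powerset, not_subset] at hT1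
      obtain ⟨n, hn, hn'⟩ := hT1
      rw [prod_eq_zero hn (if_neg hn'), mul_zero]
  have hcont : Continuous fun s : ℝ => ∑ T1 ∈ T.powerset, c T1 * s ^ (T.card - T1.card) := by
    fun_prop
  have h0 : ∑ T1 ∈ T.powerset, c T1 * (0 : ℝ) ^ (T.card - T1.card) = c T := by
    rw [sum_eq_single_of_mem T (mem_powerset_self T)]
    · simp
    · intro T1 hT1 hne
      have hlt : T1.card < T.card :=
        card_lt_card ((mem_powerset.1 hT1).ssubset_of_ne hne)
      rw [zero_pow (by omega), mul_zero]
  have ht : Tendsto (fun s : ℝ => ∑ T1 ∈ T.powerset, c T1 * s ^ (T.card - T1.card)) (𝓝[>] 0)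
      (𝓝 (c T)) := by
    have := (hcont.tendsto 0).mono_left (nhdsWithin_le_nhds (s := Set.Ioi (0 : ℝ)))
    rwa [h0] at this
  exact ge_of_tendsto ht (eventually_nhdsWithin_of_forall fun s hs => hpos s hs)

end Pool.Agent.Y290.SR
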